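import Mathlib

/-!
Project LH (helper728): logical homogeneity of polynomial algebras over a field (MP_1dfe91_lc,
frozen S14445).  Definitions.
-/

set_option autoImplicit false

namespace Pool.Agent.W728.LH

/-- the constants of a polynomial ring over a field: zero and the units -/
def IsC {R : Type} [CommRing R] (h : R) : Prop := h = 0 ∨ IsUnit h

/-- defines `P[x]` when `P` is infinite -/
def S1inf {R : Type} [CommRing R] (x g : R) : Prop :=
  ∀ c, IsC c → ∃ d, IsC d ∧ (x - c) ∣ (g - d)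

/-- defines the powers of a variable -/
def Pw {R : Type} [CommRing R] (x u : R) : Prop :=
  (∀ v, v ∣ u → IsUnit v ∨ x ∣ v) ∧ (x - 1) ∣ (u - 1)

/-- defines `P[x]` when `P` is finite -/
def S1fin {R : Type} [CommRing R] (x g : R) : Prop :=
  g = 0 ∨ ∃ u w, Pw x u ∧ Pw x w ∧ w ≠ 1 ∧ g ∣ u * (w - 1)

/-- defines `P[x 0, ..., x k]` from a definition `S` of `P[x 0]` -/
def SS {R : Type} [CommRing R] (S : R → R → Prop) (x : ℕ → R) : ℕ → R → Prop
  | 0 => fun g => S (x 0) g
  | k + 1 => fun g => ∀ f, S (x 0) f → ∃ d, SS S x k d ∧ (x (k + 1) - f) ∣ (g - d)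

/-- the formula defining the bases -/
def Gen {R : Type} [CommRing R] (S : R → R → Prop) (m : ℕ) (x : ℕ → R) : Prop :=
  (¬ IsC (x 0)) ∧
  (∀ g, S (x 0) g → ∃ d h, IsC d ∧ S (x 0) h ∧ g = d + x 0 * h) ∧
  (∀ k < m, (∀ c, IsC c → SS S x k c) ∧ SS S x k (x k) ∧
      ∀ g h, SS S x k g → SS S x k h → SS S x k (g + h) ∧ SS S x k (g * h)) ∧
  (∀ k < m - 1, (∀ g, SS S x k g → SS S x (k + 1) g) ∧
      (∀ f g, S (x 0) f → SS S x (k + 1) g →
        ∃ d h, SS S x k d ∧ SS S x (k + 1) h ∧ g = d + (x (k + 1) - f) * h) ∧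
      (∀ f h, S (x 0) f → SS S x (k + 1) h → SS S x k ((x (k + 1) - f) * h) → h = 0)) ∧
  (∀ g, SS S x (m - 1) g)

/-- extension of a tuple by zero -/
def ext {R : Type} [CommRing R] {m : ℕ} (x : Fin m → R) (k : ℕ) : R :=
  if h : k < m then x ⟨k, h⟩ else 0

/-- predicates on `α`-tuples of elements of `P[X_0..X_(m-1)]` defined by a first order formula of the
language of rings with parameters in `P` -/
def PD (P : Type) [Field P] (m : ℕ) (α : Type) (p : (α → MvPolynomial (Fin m) P) → Prop) : Prop :=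
  ∃ φ : FirstOrder.Language.ring.Formula (α ⊕ P), ∀ v : α → MvPolynomial (Fin m) P,
    @FirstOrder.Language.Formula.Realize FirstOrder.Language.ring (MvPolynomial (Fin m) P)
      (FirstOrder.Ring.compatibleRingOfRing (MvPolynomial (Fin m) P)).toStructure
      (α ⊕ P) φ (Sum.elim v (algebraMap P (MvPolynomial (Fin m) P))) ↔ p v

end Pool.Agent.W728.LH
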