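import Pool.Agent.W728.LH.Lib

/-! Assembly for project LH. -/

set_option autoImplicit false

namespace Pool.Agent.W728.LH

open FirstOrder FirstOrder.Language FirstOrder.Ring

theorem t_BASE (h1 : MAIN_stmt) (h2 : TB_stmt) (h3 : INF_stmt) (h4 : FIN_stmt)
    (h5 : DEFN_stmt) : BASE_stmt := by
  intro P _ m
  rcases Nat.eq_zero_or_pos m with rfl | hm
  · refine ⟨fun _ => True, ?_, trivial, fun x _ => ?_⟩
    · let _ := FirstOrder.Ring.compatibleRingOfRing (MvPolynomial (Fin 0) P)
      exact D.true (c := algebraMap P (MvPolynomial (Fin 0) P))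
    · rw [eq_top_iff]
      intro g _
      rw [MvPolynomial.eq_C_of_isEmpty g]
      exact (Algebra.adjoin P (Set.range x)).algebraMap_mem _
  · have key : ∀ S : MvPolynomial (Fin m) P → MvPolynomial (Fin m) P → Prop,
        (∀ g, S (MvPolynomial.X ⟨0, hm⟩) g ↔
          g ∈ MvPolynomial.supported P {i : Fin m | i.val ≤ 0}) →
        PD P m (Fin m) (fun x => Gen S m (ext x)) →
        ∃ G : (Fin m → MvPolynomial (Fin m) P) → Prop,
          PD P m (Fin m) G ∧ G (fun i => MvPolynomial.X i) ∧
            ∀ x, G x → Algebra.adjoin P (Set.range x) = ⊤ := by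
      intro S hS hD
      refine ⟨fun x => Gen S m (ext x), hD, h2 P m hm S hS, fun x hx => ?_⟩
      have := h1 P m hm S (ext x) hx
      rw [← this]
      congr 1
      ext h
      constructor
      · rintro ⟨i, rfl⟩
        exact ⟨i, i.2, by simp [ext]⟩
      · rintro ⟨k, hk, rfl⟩
        exact ⟨⟨k, hk⟩, by simp [ext, hk]⟩
    rcases finite_or_infinite P with hP | hP
    · exact key S1fin (fun g => h4 P m hm g) (h5 P m).2
    · exact key S1inf (fun g => h3 P m hm g) (h5 P m).1

theorem t_aeval {P : Type} [Field P] {m n : ℕ} (q : MvPolynomial (Fin m) P) :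
    @T (MvPolynomial (Fin m) P) _ (FirstOrder.Ring.compatibleRingOfRing (MvPolynomial (Fin m) P)) P
      (algebraMap P (MvPolynomial (Fin m) P)) (Fin n ⊕ Fin m)
      (fun w => MvPolynomial.aeval (fun j => w (Sum.inr j)) q) := by
  let _ := FirstOrder.Ring.compatibleRingOfRing (MvPolynomial (Fin m) P)
  induction q using MvPolynomial.induction_on with
  | C r =>
    have := T.cst (c := algebraMap P (MvPolynomial (Fin m) P)) (α := Fin n ⊕ Fin m) r
    simpa using this
  | add p q hp hq =>
    have := T.add hp hq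
    simpa using this
  | mul_X p i hp =>
    have := T.mul hp (T.var (c := algebraMap P (MvPolynomial (Fin m) P)) (Sum.inr i))
    simpa using this

theorem inj_of_surj {R : Type} [CommRing R] [IsNoetherianRing R] (f : R →+* R)
    (hf : Function.Surjective f) : Function.Injective f := by
  let K : ℕ →o Ideal R :=
    { toFun := fun n => RingHom.ker (f ^ n)
      monotone' := by
        refine monotone_nat_of_le_succ fun n x hx => ?_
        rw [RingHom.mem_ker] at hx ⊢
        rw [pow_succ', RingHom.mul_def, RingHom.comp_apply, hx, map_zero] }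
  obtain ⟨n, hn⟩ := monotone_stabilizes_iff_noetherian.2 (inferInstance : IsNoetherian R R) K
  rw [injective_iff_map_eq_zero]
  intro a ha
  have hs : Function.Surjective ((f ^ n : R →+* R) : R → R) := by
    rw [RingHom.coe_pow]; exact hf.iterate n
  obtain ⟨b, rfl⟩ := hs a
  have hb : b ∈ K (n + 1) := by
    show b ∈ RingHom.ker (f ^ (n + 1))
    rw [RingHom.mem_ker, pow_succ', RingHom.mul_def, RingHom.comp_apply, ha]
  rw [← hn (n + 1) (Nat.le_succ n)] at hb
  exact hb

theorem final (h : BASE_stmt) :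
    ∀ (P : Type) [Field P] (m n : ℕ) (a b : Fin n → MvPolynomial (Fin m) P),
      (∀ φ : FirstOrder.Language.ring.Formula (Fin n ⊕ P),
        (@FirstOrder.Language.Formula.Realize FirstOrder.Language.ring (MvPolynomial (Fin m) P)
            (FirstOrder.Ring.compatibleRingOfRing (MvPolynomial (Fin m) P)).toStructure
            (Fin n ⊕ P) φ (Sum.elim a (algebraMap P (MvPolynomial (Fin m) P))) ↔
          @FirstOrder.Language.Formula.Realize FirstOrder.Language.ring (MvPolynomial (Fin m) P)
            (FirstOrder.Ring.compatibleRingOfRing (MvPolynomial (Fin m) P)).toStructure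
            (Fin n ⊕ P) φ (Sum.elim b (algebraMap P (MvPolynomial (Fin m) P))))) →
      ∃ σ : MvPolynomial (Fin m) P ≃ₐ[P] MvPolynomial (Fin m) P, ∀ i, σ (a i) = b i := by
  intro P _ m n a b hab
  obtain ⟨G, hG, hX, hgen⟩ := h P m
  let _ := FirstOrder.Ring.compatibleRingOfRing (MvPolynomial (Fin m) P)
  have hD : D (algebraMap P (MvPolynomial (Fin m) P)) (Fin n)
      (fun v => ∃ x : Fin m → MvPolynomial (Fin m) P, G x ∧
        ∀ i, v i = MvPolynomial.aeval x (a i)) := by
    refine D.exs (q := fun v x => G x ∧ ∀ i, v i = MvPolynomial.aeval x (a i)) ?_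
    refine D.and ?_ ?_
    · exact D.subst (c := algebraMap P (MvPolynomial (Fin m) P)) (α := Fin n ⊕ Fin m)
        (β := Fin m) (p := G) hG (t := fun b v => v (Sum.inr b)) (fun b => T.var _)
    · refine D.forallFin (p := fun i (v : Fin n ⊕ Fin m → MvPolynomial (Fin m) P) =>
        v (Sum.inl i) = MvPolynomial.aeval (fun b => v (Sum.inr b)) (a i)) fun i => ?_
      exact D.eq (T.var _) (t_aeval (a i))
  obtain ⟨φ, hφ⟩ := hD
  have ha : ∃ x : Fin m → MvPolynomial (Fin m) P, G x ∧
      ∀ i, a i = MvPolynomial.aeval x (a i) :=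
    ⟨fun i => MvPolynomial.X i, hX, fun i => by rw [MvPolynomial.aeval_X_left]; rfl⟩
  have hb := (hφ b).1 ((hab φ).1 ((hφ a).2 ha))
  obtain ⟨x, hx, hbx⟩ := hb
  have hsurj : Function.Surjective (MvPolynomial.aeval x :
      MvPolynomial (Fin m) P →ₐ[P] MvPolynomial (Fin m) P) := by
    rw [← AlgHom.range_eq_top, ← Algebra.adjoin_range_eq_range_aeval]
    exact hgen x hx
  have hinj : Function.Injective (MvPolynomial.aeval x :
      MvPolynomial (Fin m) P →ₐ[P] MvPolynomial (Fin m) P) :=
    inj_of_surj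
      (MvPolynomial.aeval x : MvPolynomial (Fin m) P →ₐ[P] MvPolynomial (Fin m) P).toRingHom hsurj
  exact ⟨AlgEquiv.ofBijective (MvPolynomial.aeval x) ⟨hinj, hsurj⟩, fun i => (hbx i).symm⟩

end Pool.Agent.W728.LH
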