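import Pool.Agent.W728.LH.Stms

/-! Definability library for project LH. -/

set_option autoImplicit false

namespace Pool.Agent.W728.LH

open FirstOrder FirstOrder.Language FirstOrder.Ring

section gen

variable {R : Type} [CommRing R] [FirstOrder.Ring.CompatibleRing R] {P : Type} (c : P → R)

def D (α : Type) (p : (α → R) → Prop) : Prop :=
  ∃ φ : FirstOrder.Language.ring.Formula (α ⊕ P), ∀ v : α → R,
    φ.Realize (Sum.elim v c) ↔ p v

def T (α : Type) (t : (α → R) → R) : Prop :=
  ∃ τ : FirstOrder.Language.ring.Term (α ⊕ P), ∀ v : α → R,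
    τ.realize (Sum.elim v c) = t v

variable {c} {α β : Type}

theorem T.var (a : α) : T c α (fun v => v a) :=
  ⟨Language.var (Sum.inl a), fun v => by simp⟩

theorem T.cst (p : P) : T c α (fun _ => c p) :=
  ⟨Language.var (Sum.inr p), fun v => by simp⟩

theorem T.add {s t : (α → R) → R} (hs : T c α s) (ht : T c α t) : T c α (fun v => s v + t v) := by
  obtain ⟨σ, hσ⟩ := hs
  obtain ⟨τ, hτ⟩ := ht
  exact ⟨σ + τ, fun v => by rw [realize_add, hσ, hτ]⟩

theorem T.mul {s t : (α → R) → R} (hs : T c α s) (ht : T c α t) : T c α (fun v => s v * t v) := by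
  obtain ⟨σ, hσ⟩ := hs
  obtain ⟨τ, hτ⟩ := ht
  exact ⟨σ * τ, fun v => by rw [realize_mul, hσ, hτ]⟩

theorem T.neg {s : (α → R) → R} (hs : T c α s) : T c α (fun v => - s v) := by
  obtain ⟨σ, hσ⟩ := hs
  exact ⟨-σ, fun v => by rw [realize_neg, hσ]⟩

theorem T.sub {s t : (α → R) → R} (hs : T c α s) (ht : T c α t) : T c α (fun v => s v - t v) := by
  have := hs.add ht.neg
  simpa [sub_eq_add_neg] using this

theorem T.zero : T c α (fun _ => (0 : R)) := ⟨0, fun v => by rw [realize_zero]⟩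

theorem T.one : T c α (fun _ => (1 : R)) := ⟨1, fun v => by rw [realize_one]⟩

theorem D.congr {p q : (α → R) → Prop} (h : D c α p) (hpq : ∀ v, p v ↔ q v) : D c α q := by
  obtain ⟨φ, hφ⟩ := h
  exact ⟨φ, fun v => (hφ v).trans (hpq v)⟩

theorem D.eq {s t : (α → R) → R} (hs : T c α s) (ht : T c α t) : D c α (fun v => s v = t v) := by
  obtain ⟨σ, hσ⟩ := hs
  obtain ⟨τ, hτ⟩ := ht
  exact ⟨σ.equal τ, fun v => by rw [Formula.realize_equal, hσ, hτ]⟩

theorem D.not {p : (α → R) → Prop} (h : D c α p) : D c α (fun v => ¬ p v) := by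
  obtain ⟨φ, hφ⟩ := h
  exact ⟨φ.not, fun v => by rw [Formula.realize_not, hφ]⟩

theorem D.and {p q : (α → R) → Prop} (h : D c α p) (h' : D c α q) : D c α (fun v => p v ∧ q v) := by
  obtain ⟨φ, hφ⟩ := h
  obtain ⟨ψ, hψ⟩ := h'
  exact ⟨φ ⊓ ψ, fun v => by rw [Formula.realize_inf, hφ, hψ]⟩

theorem D.or {p q : (α → R) → Prop} (h : D c α p) (h' : D c α q) : D c α (fun v => p v ∨ q v) := by
  obtain ⟨φ, hφ⟩ := h
  obtain ⟨ψ, hψ⟩ := h'
  exact ⟨φ ⊔ ψ, fun v => by rw [Formula.realize_sup, hφ, hψ]⟩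

theorem D.imp {p q : (α → R) → Prop} (h : D c α p) (h' : D c α q) : D c α (fun v => p v → q v) := by
  obtain ⟨φ, hφ⟩ := h
  obtain ⟨ψ, hψ⟩ := h'
  exact ⟨φ.imp ψ, fun v => by rw [Formula.realize_imp, hφ, hψ]⟩

theorem D.true : D c α (fun _ => True) := (D.eq T.zero T.zero).congr (fun v => by simp)

theorem D.subst {p : (β → R) → Prop} (h : D c β p) {t : β → (α → R) → R}
    (ht : ∀ b, T c α (t b)) : D c α (fun v => p (fun b => t b v)) := by
  obtain ⟨φ, hφ⟩ := h
  choose τ hτ using ht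
  refine ⟨BoundedFormula.subst φ (Sum.elim τ (fun p => Language.var (Sum.inr p))), fun v => ?_⟩
  show _ ↔ p (fun b => t b v)
  rw [← hφ, Formula.Realize, BoundedFormula.realize_subst, Formula.Realize]
  have : (fun a => Term.realize (Sum.elim v c)
      (Sum.elim τ (fun p => Language.var (Sum.inr p) : P → Language.ring.Term (α ⊕ P)) a)) =
      Sum.elim (fun b => t b v) c := by
    funext a
    rcases a with b | p
    · simp [hτ]
    · simp
  rw [this]

theorem D.exs [Finite β] {q : (α → R) → (β → R) → Prop}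
    (h : D c (α ⊕ β) (fun w => q (fun a => w (Sum.inl a)) (fun b => w (Sum.inr b)))) :
    D c α (fun v => ∃ x : β → R, q v x) := by
  obtain ⟨φ, hφ⟩ := h
  let g : (α ⊕ β) ⊕ P → (α ⊕ P) ⊕ β :=
    Sum.elim (Sum.elim (fun a => Sum.inl (Sum.inl a)) (fun b => Sum.inr b))
      (fun p => Sum.inl (Sum.inr p))
  refine ⟨(φ.relabel g).iExs β, fun v => ?_⟩
  rw [Formula.realize_iExs]
  refine exists_congr fun x => ?_
  rw [Formula.realize_relabel]
  have : (Sum.elim (Sum.elim v c) x) ∘ g = Sum.elim (Sum.elim v x) c := by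
    funext a
    rcases a with (a | b) | p <;> rfl
  rw [this, hφ]
  rfl

theorem D.ex {q : (α → R) → R → Prop}
    (h : D c (α ⊕ Unit) (fun w => q (fun a => w (Sum.inl a)) (w (Sum.inr ())))) :
    D c α (fun v => ∃ x : R, q v x) := by
  have := D.exs (c := c) (α := α) (β := Unit) (q := fun v x => q v (x ())) h
  refine this.congr fun v => ?_
  constructor
  · rintro ⟨x, hx⟩; exact ⟨x (), hx⟩
  · rintro ⟨x, hx⟩; exact ⟨fun _ => x, hx⟩

theorem D.all {q : (α → R) → R → Prop}
    (h : D c (α ⊕ Unit) (fun w => q (fun a => w (Sum.inl a)) (w (Sum.inr ())))) :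
    D c α (fun v => ∀ x : R, q v x) := by
  have := (D.ex (q := fun v x => ¬ q v x) h.not).not
  refine this.congr fun v => ?_
  simp

theorem D.forallFin {ι : Type} [Finite ι] {p : ι → (α → R) → Prop} (h : ∀ i, D c α (p i)) :
    D c α (fun v => ∀ i, p i v) := by
  choose φ hφ using h
  refine ⟨Formula.iInf φ, fun v => ?_⟩
  rw [Formula.realize_iInf]
  exact forall_congr' fun i => hφ i v

theorem D.forallLt {p : ℕ → (α → R) → Prop} (n : ℕ) (h : ∀ k < n, D c α (p k)) :
    D c α (fun v => ∀ k < n, p k v) := by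
  have := D.forallFin (c := c) (α := α) (ι := Fin n) (p := fun i => p i) (fun i => h i i.2)
  refine this.congr fun v => ?_
  constructor
  · intro H k hk; exact H ⟨k, hk⟩
  · intro H i; exact H i i.2

/-- definable binary relations can be applied to terms -/
def D2 (c : P → R) (r : R → R → Prop) : Prop := D c (Fin 2) (fun v => r (v 0) (v 1))

theorem D2.app {r : R → R → Prop} (h : D2 c r) {s t : (α → R) → R} (hs : T c α s) (ht : T c α t) :
    D c α (fun v => r (s v) (t v)) := by
  have := D.subst (c := c) (α := α) h (t := ![s, t]) (by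
    intro b; fin_cases b
    · exact hs
    · exact ht)
  simpa using this

/-- definable unary relations can be applied to terms -/
def D1 (c : P → R) (r : R → Prop) : Prop := D c Unit (fun v => r (v ()))

theorem D1.app {r : R → Prop} (h : D1 c r) {s : (α → R) → R} (hs : T c α s) :
    D c α (fun v => r (s v)) :=
  D.subst (c := c) (α := α) h (t := fun _ => s) (fun _ => hs)

theorem dDvd {s t : (α → R) → R} (hs : T c α s) (ht : T c α t) : D c α (fun v => s v ∣ t v) := by
  have h2 : D2 c (fun a b : R => a ∣ b) := by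
    refine D.ex (q := fun v x => v 1 = v 0 * x) ?_
    exact D.eq (T.var _) ((T.var _).mul (T.var _))
  exact h2.app hs ht

theorem dUnit {s : (α → R) → R} (hs : T c α s) : D c α (fun v => IsUnit (s v)) :=
  (dDvd hs T.one).congr fun _ => isUnit_iff_dvd_one.symm

theorem dIsC {s : (α → R) → R} (hs : T c α s) : D c α (fun v => IsC (s v)) :=
  (D.eq hs T.zero).or (dUnit hs)

theorem d2S1inf : D2 c (S1inf : R → R → Prop) := by
  refine D.all (q := fun v x => IsC x → ∃ d, IsC d ∧ (v 0 - x) ∣ (v 1 - d)) ?_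
  refine (dIsC (T.var _)).imp ?_
  refine D.ex (q := fun (w : Fin 2 ⊕ Unit → R) d => IsC d ∧
    (w (Sum.inl 0) - w (Sum.inr ())) ∣ (w (Sum.inl 1) - d)) ?_
  exact (dIsC (T.var _)).and (dDvd ((T.var _).sub (T.var _)) ((T.var _).sub (T.var _)))

theorem d2Pw : D2 c (Pw : R → R → Prop) := by
  refine D.and ?_ (dDvd ((T.var _).sub T.one) ((T.var _).sub T.one))
  refine D.all (q := fun v x => x ∣ v 1 → IsUnit x ∨ v 0 ∣ x) ?_
  exact (dDvd (T.var _) (T.var _)).imp ((dUnit (T.var _)).or (dDvd (T.var _) (T.var _)))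

theorem d2S1fin : D2 c (S1fin : R → R → Prop) := by
  refine D.or (D.eq (T.var _) T.zero) ?_
  refine D.ex (q := fun v u => ∃ w, Pw (v 0) u ∧ Pw (v 0) w ∧ w ≠ 1 ∧ v 1 ∣ u * (w - 1)) ?_
  refine D.ex (q := fun (v : Fin 2 ⊕ Unit → R) w => Pw (v (Sum.inl 0)) (v (Sum.inr ())) ∧
    Pw (v (Sum.inl 0)) w ∧ w ≠ 1 ∧ v (Sum.inl 1) ∣ v (Sum.inr ()) * (w - 1)) ?_
  refine (d2Pw.app (T.var _) (T.var _)).and ((d2Pw.app (T.var _) (T.var _)).and ?_)
  exact (D.eq (T.var _) T.one).not.and
    (dDvd (T.var _) ((T.var _).mul ((T.var _).sub T.one)))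

/-- `SS S x k g` as a predicate on `(x, g)` -/
theorem dSS {S : R → R → Prop} (hS : D2 c S) (k : ℕ) :
    D c (ℕ ⊕ Unit) (fun v => SS S (fun i => v (Sum.inl i)) k (v (Sum.inr ()))) := by
  induction k with
  | zero => exact hS.app (T.var _) (T.var _)
  | succ k ih =>
    refine D.all (q := fun v f => S (v (Sum.inl 0)) f → ∃ d, SS S (fun i => v (Sum.inl i)) k d ∧
      (v (Sum.inl (k + 1)) - f) ∣ (v (Sum.inr ()) - d)) ?_
    refine (hS.app (T.var _) (T.var _)).imp ?_
    refine D.ex (q := fun (v : (ℕ ⊕ Unit) ⊕ Unit → R) d =>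
      SS S (fun i => v (Sum.inl (Sum.inl i))) k d ∧
      (v (Sum.inl (Sum.inl (k + 1))) - v (Sum.inr ())) ∣ (v (Sum.inl (Sum.inr ())) - d)) ?_
    refine D.and ?_ (dDvd ((T.var _).sub (T.var _)) ((T.var _).sub (T.var _)))
    have := D.subst (c := c) (α := ((ℕ ⊕ Unit) ⊕ Unit) ⊕ Unit) ih
      (t := fun b v => Sum.elim (fun i => v (Sum.inl (Sum.inl (Sum.inl i))))
        (fun _ => v (Sum.inr ())) b) (by
          intro b
          rcases b with i | _
          · exact T.var (Sum.inl (Sum.inl (Sum.inl i)))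
          · exact T.var (Sum.inr ()))
    exact this

theorem dSSapp {S : R → R → Prop} (hS : D2 c S) (k : ℕ) {x : ℕ → (α → R) → R}
    (hx : ∀ i, T c α (x i)) {g : (α → R) → R} (hg : T c α g) :
    D c α (fun v => SS S (fun i => x i v) k (g v)) := by
  have := D.subst (c := c) (α := α) (dSS hS k)
    (t := fun b v => Sum.elim (fun i => x i v) (fun _ => g v) b) (by
          intro b
          rcases b with i | _
          · exact hx i
          · exact hg)
  exact this

theorem dGen0 {S : R → R → Prop} (hS : D2 c S) (m : ℕ) :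
    D c ℕ (fun v => Gen S m v) := by
  refine D.and (dIsC (T.var _)).not (D.and ?_ (D.and ?_ (D.and ?_ ?_)))
  · refine D.all (q := fun v g => S (v 0) g → ∃ d h, IsC d ∧ S (v 0) h ∧ g = d + v 0 * h) ?_
    refine (hS.app (T.var _) (T.var _)).imp ?_
    refine D.ex (q := fun (v : ℕ ⊕ Unit → R) d => ∃ h, IsC d ∧ S (v (Sum.inl 0)) h ∧
      v (Sum.inr ()) = d + v (Sum.inl 0) * h) ?_
    refine D.ex (q := fun (v : (ℕ ⊕ Unit) ⊕ Unit → R) h => IsC (v (Sum.inr ())) ∧
      S (v (Sum.inl (Sum.inl 0))) h ∧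
      v (Sum.inl (Sum.inr ())) = v (Sum.inr ()) + v (Sum.inl (Sum.inl 0)) * h) ?_
    exact (dIsC (T.var _)).and ((hS.app (T.var _) (T.var _)).and
      (D.eq (T.var _) ((T.var _).add ((T.var _).mul (T.var _)))))
  · refine D.forallLt (p := fun k v => (∀ c, IsC c → SS S v k c) ∧ SS S v k (v k) ∧
      ∀ g h, SS S v k g → SS S v k h → SS S v k (g + h) ∧ SS S v k (g * h)) m fun k _ => ?_
    refine D.and ?_ (D.and ?_ ?_)
    · refine D.all (q := fun v c => IsC c → SS S v k c) ?_
      exact (dIsC (T.var _)).imp (dSSapp hS k (x := fun i v => v (Sum.inl i)) (fun i => T.var _)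
        (T.var _))
    · exact dSSapp hS k (x := fun i v => v i) (fun i => T.var _) (T.var _)
    · refine D.all (q := fun v g => ∀ h, SS S v k g → SS S v k h →
        SS S v k (g + h) ∧ SS S v k (g * h)) ?_
      refine D.all (q := fun (v : ℕ ⊕ Unit → R) h => SS S (fun i => v (Sum.inl i)) k (v (Sum.inr ())) →
        SS S (fun i => v (Sum.inl i)) k h →
        SS S (fun i => v (Sum.inl i)) k (v (Sum.inr ()) + h) ∧
        SS S (fun i => v (Sum.inl i)) k (v (Sum.inr ()) * h)) ?_
      have A : ∀ {g : ((ℕ ⊕ Unit) ⊕ Unit → R) → R}, T c _ g →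
          D c ((ℕ ⊕ Unit) ⊕ Unit) (fun v => SS S (fun i => v (Sum.inl (Sum.inl i))) k (g v)) :=
        fun hg => dSSapp hS k (x := fun i v => v (Sum.inl (Sum.inl i))) (fun i => T.var _) hg
      exact (A (T.var _)).imp ((A (T.var _)).imp
        ((A ((T.var _).add (T.var _))).and (A ((T.var _).mul (T.var _)))))
  · refine D.forallLt (p := fun k v => (∀ g, SS S v k g → SS S v (k + 1) g) ∧
      (∀ f g, S (v 0) f → SS S v (k + 1) g →
        ∃ d h, SS S v k d ∧ SS S v (k + 1) h ∧ g = d + (v (k + 1) - f) * h) ∧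
      (∀ f h, S (v 0) f → SS S v (k + 1) h → SS S v k ((v (k + 1) - f) * h) → h = 0))
      (m - 1) fun k _ => ?_
    refine D.and ?_ (D.and ?_ ?_)
    · refine D.all (q := fun v g => SS S v k g → SS S v (k + 1) g) ?_
      exact (dSSapp hS k (x := fun i v => v (Sum.inl i)) (fun i => T.var _) (T.var _)).imp
        (dSSapp hS (k + 1) (x := fun i v => v (Sum.inl i)) (fun i => T.var _) (T.var _))
    · refine D.all (q := fun v f => ∀ g, S (v 0) f → SS S v (k + 1) g →
        ∃ d h, SS S v k d ∧ SS S v (k + 1) h ∧ g = d + (v (k + 1) - f) * h) ?_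
      refine D.all (q := fun (v : ℕ ⊕ Unit → R) g => S (v (Sum.inl 0)) (v (Sum.inr ())) →
        SS S (fun i => v (Sum.inl i)) (k + 1) g →
        ∃ d h, SS S (fun i => v (Sum.inl i)) k d ∧ SS S (fun i => v (Sum.inl i)) (k + 1) h ∧
          g = d + (v (Sum.inl (k + 1)) - v (Sum.inr ())) * h) ?_
      refine (hS.app (T.var _) (T.var _)).imp (D.imp (dSSapp hS (k + 1)
        (x := fun i v => v (Sum.inl (Sum.inl i))) (fun i => T.var _) (T.var _)) ?_)
      refine D.ex (q := fun (v : (ℕ ⊕ Unit) ⊕ Unit → R) d =>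
        ∃ h, SS S (fun i => v (Sum.inl (Sum.inl i))) k d ∧
          SS S (fun i => v (Sum.inl (Sum.inl i))) (k + 1) h ∧
          v (Sum.inr ()) = d + (v (Sum.inl (Sum.inl (k + 1))) - v (Sum.inl (Sum.inr ()))) * h) ?_
      refine D.ex (q := fun (v : ((ℕ ⊕ Unit) ⊕ Unit) ⊕ Unit → R) h =>
        SS S (fun i => v (Sum.inl (Sum.inl (Sum.inl i)))) k (v (Sum.inr ())) ∧
          SS S (fun i => v (Sum.inl (Sum.inl (Sum.inl i)))) (k + 1) h ∧
          v (Sum.inl (Sum.inr ())) = v (Sum.inr ()) +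
            (v (Sum.inl (Sum.inl (Sum.inl (k + 1)))) - v (Sum.inl (Sum.inl (Sum.inr ())))) * h) ?_
      refine D.and (dSSapp hS k (x := fun i v => v (Sum.inl (Sum.inl (Sum.inl (Sum.inl i)))))
        (fun i => T.var _) (T.var _)) (D.and (dSSapp hS (k + 1)
        (x := fun i v => v (Sum.inl (Sum.inl (Sum.inl (Sum.inl i)))))
        (fun i => T.var _) (T.var _)) ?_)
      exact D.eq (T.var _) ((T.var _).add (((T.var _).sub (T.var _)).mul (T.var _)))
    · refine D.all (q := fun v f => ∀ h, S (v 0) f → SS S v (k + 1) h →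
        SS S v k ((v (k + 1) - f) * h) → h = 0) ?_
      refine D.all (q := fun (v : ℕ ⊕ Unit → R) h => S (v (Sum.inl 0)) (v (Sum.inr ())) →
        SS S (fun i => v (Sum.inl i)) (k + 1) h →
        SS S (fun i => v (Sum.inl i)) k ((v (Sum.inl (k + 1)) - v (Sum.inr ())) * h) → h = 0) ?_
      refine (hS.app (T.var _) (T.var _)).imp (D.imp (dSSapp hS (k + 1)
        (x := fun i v => v (Sum.inl (Sum.inl i))) (fun i => T.var _) (T.var _)) (D.imp ?_ ?_))
      · exact dSSapp hS k (x := fun i v => v (Sum.inl (Sum.inl i))) (fun i => T.var _)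
          (((T.var _).sub (T.var _)).mul (T.var _))
      · exact D.eq (T.var _) T.zero
  · refine D.all (q := fun v g => SS S v (m - 1) g) ?_
    exact dSSapp hS (m - 1) (x := fun i v => v (Sum.inl i)) (fun i => T.var _) (T.var _)

theorem dGen {S : R → R → Prop} (hS : D2 c S) (m : ℕ) :
    D c (Fin m) (fun x => Gen S m (ext x)) := by
  have := D.subst (c := c) (α := Fin m) (dGen0 hS m) (t := fun i v => ext v i) (by
    intro i
    by_cases h : i < m
    · have : (fun v : Fin m → R => ext v i) = fun v => v ⟨i, h⟩ := by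
        funext v; simp [ext, h]
      rw [this]; exact T.var _
    · have : (fun v : Fin m → R => ext v i) = fun v => 0 := by
        funext v; simp [ext, h]
      rw [this]; exact T.zero)
  exact this

end gen

theorem t_DEFN : DEFN_stmt := by
  intro P _ m
  letI := FirstOrder.Ring.compatibleRingOfRing (MvPolynomial (Fin m) P)
  exact ⟨dGen (c := algebraMap P (MvPolynomial (Fin m) P)) d2S1inf m,
    dGen (c := algebraMap P (MvPolynomial (Fin m) P)) d2S1fin m⟩

end Pool.Agent.W728.LH
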