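import Pool.Agent.W728.LH.Defs

set_option autoImplicit false

namespace Pool.Agent.W728.LH

open MvPolynomial

/-- step lemma, degrees only -/
def STEP_stmt : Prop :=
  ∀ (P R : Type) [Field P] [CommRing R] [IsDomain R] [Algebra P R] (deg : R → ℕ),
    deg 0 = 0 → (∀ u v : R, u ≠ 0 → v ≠ 0 → deg (u * v) = deg u + deg v) →
    (∀ u v : R, deg (u + v) ≤ max (deg u) (deg v)) → (∀ u : R, deg (-u) = deg u) →
    ∀ (B C : Subalgebra P R), B ≤ C → ∀ x ∈ C, ∀ F : Set R, F ⊆ (B : Set R) → (0 : R) ∈ F →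
      (∀ N : ℕ, ∃ f ∈ F, N ≤ deg f) →
      (∀ f ∈ F, ∀ g ∈ C, ∃ d ∈ B, ∃ h ∈ C, g = d + (x - f) * h) →
      (∀ f ∈ F, ∀ h ∈ C, (x - f) * h ∈ B → h = 0) →
      ∀ g ∈ C, (∃ Q : Polynomial (Polynomial B), Q ≠ 0 ∧
          Polynomial.eval g (Q.map (Polynomial.eval₂RingHom (algebraMap B R) x)) = 0) →
        ∃ p : Polynomial B, g = Polynomial.eval₂ (algebraMap B R) x p

/-- algebraicity by transcendence degree -/
def ALG_stmt : Prop :=
  ∀ (P : Type) [Field P] (m : ℕ) (x : ℕ → MvPolynomial (Fin m) P)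
    (B : ℕ → Subalgebra P (MvPolynomial (Fin m) P)),
    (∀ k < m, x k ∈ B k) → (∀ k < m - 1, B k ≤ B (k + 1)) →
    Transcendental P (x 0) →
    (∀ k < m - 1, Transcendental (B k) (x (k + 1))) →
    ∀ k < m - 1, ∀ g ∈ B (k + 1), ∃ Q : Polynomial (Polynomial (B k)), Q ≠ 0 ∧
      Polynomial.eval g (Q.map (Polynomial.eval₂RingHom
        (algebraMap (B k) (MvPolynomial (Fin m) P)) (x (k + 1)))) = 0

/-- every tuple satisfying `Gen` generates -/
def MAIN_stmt : Prop :=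
  ∀ (P : Type) [Field P] (m : ℕ), 0 < m →
    ∀ (S : MvPolynomial (Fin m) P → MvPolynomial (Fin m) P → Prop)
      (x : ℕ → MvPolynomial (Fin m) P), Gen S m x →
      Algebra.adjoin P {h | ∃ k < m, h = x k} = ⊤

/-- the variables satisfy `Gen` -/
def TB_stmt : Prop :=
  ∀ (P : Type) [Field P] (m : ℕ) (hm : 0 < m)
    (S : MvPolynomial (Fin m) P → MvPolynomial (Fin m) P → Prop),
    (∀ g, S (X ⟨0, hm⟩) g ↔ g ∈ supported P {i : Fin m | i.val ≤ 0}) →
    Gen S m (ext (fun i => (X i : MvPolynomial (Fin m) P)))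

/-- decomposition and uniqueness for the variables -/
def DEC_stmt : Prop :=
  ∀ (P : Type) [Field P] (m k : ℕ) (hk : k + 1 < m),
    (∀ f ∈ supported P {i : Fin m | i.val ≤ k}, ∀ g ∈ supported P {i : Fin m | i.val ≤ k + 1},
      ∃ d ∈ supported P {i : Fin m | i.val ≤ k}, ∃ h ∈ supported P {i : Fin m | i.val ≤ k + 1},
        g = d + (X ⟨k + 1, hk⟩ - f) * h) ∧
    (∀ f ∈ supported P {i : Fin m | i.val ≤ k}, ∀ h : MvPolynomial (Fin m) P,
      (X ⟨k + 1, hk⟩ - f) * h ∈ supported P {i : Fin m | i.val ≤ k} → h = 0)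

/-- `SS` for the variables -/
def CH_stmt : Prop :=
  ∀ (P : Type) [Field P] (m : ℕ) (hm : 0 < m)
    (S : MvPolynomial (Fin m) P → MvPolynomial (Fin m) P → Prop),
    (∀ g, S (X ⟨0, hm⟩) g ↔ g ∈ supported P {i : Fin m | i.val ≤ 0}) →
    ∀ k < m, ∀ g, SS S (ext (fun i => (X i : MvPolynomial (Fin m) P))) k g ↔
      g ∈ supported P {i : Fin m | i.val ≤ k}

/-- `P[X 0]` when `P` is infinite -/
def INF_stmt : Prop :=
  ∀ (P : Type) [Field P] [Infinite P] (m : ℕ) (hm : 0 < m) (g : MvPolynomial (Fin m) P),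
    S1inf (X ⟨0, hm⟩) g ↔ g ∈ supported P {i : Fin m | i.val ≤ 0}

/-- `P[X 0]` when `P` is finite -/
def FIN_stmt : Prop :=
  ∀ (P : Type) [Field P] [Finite P] (m : ℕ) (hm : 0 < m) (g : MvPolynomial (Fin m) P),
    S1fin (X ⟨0, hm⟩) g ↔ g ∈ supported P {i : Fin m | i.val ≤ 0}

/-- definability of `Gen` -/
def DEFN_stmt : Prop :=
  ∀ (P : Type) [Field P] (m : ℕ),
    PD P m (Fin m) (fun x => Gen S1inf m (ext x)) ∧ PD P m (Fin m) (fun x => Gen S1fin m (ext x))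

/-- a generating system with a definable set containing it -/
def BASE_stmt : Prop :=
  ∀ (P : Type) [Field P] (m : ℕ), ∃ G : (Fin m → MvPolynomial (Fin m) P) → Prop,
    PD P m (Fin m) G ∧ G (fun i => X i) ∧ ∀ x, G x → Algebra.adjoin P (Set.range x) = ⊤

end Pool.Agent.W728.LH
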